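import Mathlib

set_option autoImplicit false

namespace Pool.Agent.W205.Feige

open Finset

variable {ι : Type*} [DecidableEq ι]

/-- `Ex a q I g` is the expectation of `g (Z)` where `Z = ∑ i ∈ I, X i` and the `X i` are
independent, `X i = a i` with probability `q i` and `X i = 0` with probability `1 - q i`. -/
noncomputable def Ex (a q : ι → ℝ) (I : Finset ι) (g : ℝ → ℝ) : ℝ :=
  ∑ S ∈ I.powerset, ((∏ i ∈ S, q i) * (∏ i ∈ I \ S, (1 - q i))) * g (∑ i ∈ S, a i)

variable (a q : ι → ℝ)

theorem Ex_empty (g : ℝ → ℝ) : Ex a q ∅ g = g 0 := by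
  simp [Ex]

theorem Ex_insert (I : Finset ι) (j : ι) (hj : j ∉ I) (g : ℝ → ℝ) :
    Ex a q (insert j I) g
      = (1 - q j) * Ex a q I g + q j * Ex a q I (fun x => g (x + a j)) := by
  unfold Ex
  rw [Finset.sum_powerset_insert hj, Finset.mul_sum, Finset.mul_sum]
  congr 1
  · refine Finset.sum_congr rfl fun S hS => ?_
    have hS' : S ⊆ I := Finset.mem_powerset.mp hS
    have hjS : j ∉ S := fun h => hj (hS' h)
    rw [Finset.insert_sdiff_of_notMem _ hjS,
      Finset.prod_insert (fun h => hj (Finset.mem_sdiff.mp h).1)]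
    ring
  · refine Finset.sum_congr rfl fun S hS => ?_
    have hS' : S ⊆ I := Finset.mem_powerset.mp hS
    have hjS : j ∉ S := fun h => hj (hS' h)
    have h1 : insert j I \ insert j S = I \ S := by
      ext x
      simp only [Finset.mem_sdiff, Finset.mem_insert]
      constructor
      · rintro ⟨h | h, h'⟩
        · exact absurd (Or.inl h) h'
        · exact ⟨h, fun hx => h' (Or.inr hx)⟩
      · rintro ⟨h, h'⟩
        refine ⟨Or.inr h, ?_⟩
        rintro (rfl | hx)
        · exact hj h
        · exact h' hx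
    rw [h1, Finset.prod_insert hjS, Finset.sum_insert hjS, add_comm (a j)]
    ring

theorem Ex_erase (I : Finset ι) (j : ι) (hj : j ∈ I) (g : ℝ → ℝ) :
    Ex a q I g
      = (1 - q j) * Ex a q (I.erase j) g + q j * Ex a q (I.erase j) (fun x => g (x + a j)) := by
  conv_lhs => rw [← Finset.insert_erase hj]
  exact Ex_insert a q (I.erase j) j (Finset.notMem_erase j I) g

theorem Ex_add (I : Finset ι) (g h : ℝ → ℝ) :
    Ex a q I (fun x => g x + h x) = Ex a q I g + Ex a q I h := by
  unfold Ex
  rw [← Finset.sum_add_distrib]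
  exact Finset.sum_congr rfl fun S _ => by ring

theorem Ex_smul (I : Finset ι) (c : ℝ) (g : ℝ → ℝ) :
    Ex a q I (fun x => c * g x) = c * Ex a q I g := by
  unfold Ex
  rw [Finset.mul_sum]
  exact Finset.sum_congr rfl fun S _ => by ring

theorem Ex_const (I : Finset ι) (c : ℝ) : Ex a q I (fun _ => c) = c := by
  induction I using Finset.induction_on with
  | empty => simp [Ex]
  | insert j I hj ih =>
    rw [Ex_insert a q I j hj, ih]
    ring

theorem Ex_mono (I : Finset ι) (hq : ∀ i ∈ I, 0 ≤ q i ∧ q i ≤ 1) (g h : ℝ → ℝ)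
    (hgh : ∀ x, g x ≤ h x) : Ex a q I g ≤ Ex a q I h := by
  unfold Ex
  refine Finset.sum_le_sum fun S hS => ?_
  have hS' : S ⊆ I := Finset.mem_powerset.mp hS
  refine mul_le_mul_of_nonneg_left (hgh _) (mul_nonneg ?_ ?_)
  · exact Finset.prod_nonneg fun i hi => (hq i (hS' hi)).1
  · exact Finset.prod_nonneg fun i hi => by
      have := (hq i (Finset.mem_sdiff.mp hi).1).2
      linarith

/-- size-bias identity -/
theorem Ex_bias (I : Finset ι) (g : ℝ → ℝ) :
    Ex a q I (fun x => x * g x)
      = ∑ i ∈ I, (a i * q i) * Ex a q (I.erase i) (fun x => g (x + a i)) := by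
  induction I using Finset.induction_on generalizing g with
  | empty => simp [Ex]
  | insert j I hj ih =>
    rw [Ex_insert a q I j hj, ih, Finset.sum_insert hj, Finset.erase_insert hj]
    have h1 : Ex a q I (fun x => (x + a j) * g (x + a j))
        = (∑ i ∈ I, (a i * q i) * Ex a q (I.erase i) (fun x => g (x + a i + a j)))
          + a j * Ex a q I (fun x => g (x + a j)) := by
      have h2 := ih (fun x => g (x + a j))
      have h3 : Ex a q I (fun x => (x + a j) * g (x + a j))
          = Ex a q I (fun x => x * g (x + a j)) + Ex a q I (fun x => a j * g (x + a j)) := by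
        rw [← Ex_add]
        congr 1
        funext x
        ring
      rw [h3, h2, Ex_smul]
    rw [h1]
    have h4 : ∀ i ∈ I, Ex a q ((insert j I).erase i) (fun x => g (x + a i))
        = (1 - q j) * Ex a q (I.erase i) (fun x => g (x + a i))
          + q j * Ex a q (I.erase i) (fun x => g (x + a i + a j)) := by
      intro i hi
      have hij : j ≠ i := fun h => hj (h ▸ hi)
      rw [Finset.erase_insert_of_ne hij,
        Ex_insert a q (I.erase i) j (fun h => hj (Finset.mem_of_mem_erase h))]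
      congr 3
      funext x
      congr 1
      ring
    have h5 : ∑ i ∈ I, (a i * q i) * Ex a q ((insert j I).erase i) (fun x => g (x + a i))
        = (1 - q j) * ∑ i ∈ I, (a i * q i) * Ex a q (I.erase i) (fun x => g (x + a i))
          + q j * ∑ i ∈ I, (a i * q i) * Ex a q (I.erase i) (fun x => g (x + a i + a j)) := by
      rw [Finset.mul_sum, Finset.mul_sum, ← Finset.sum_add_distrib]
      refine Finset.sum_congr rfl fun i hi => ?_
      rw [h4 i hi]
      ring
    rw [h5]
    ring

/-- `P(Z < t)` -/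
noncomputable def F (I : Finset ι) (t : ℝ) : ℝ := Ex a q I (fun x => if x < t then 1 else 0)

/-- `E (t - Z)^+` -/
noncomputable def G (I : Finset ι) (t : ℝ) : ℝ := Ex a q I (fun x => max (t - x) 0)

/-- The mean of `Z`. -/
theorem Ex_id (I : Finset ι) : Ex a q I (fun x => x) = ∑ i ∈ I, a i * q i := by
  have h := Ex_bias a q I (fun _ => 1)
  simp only [mul_one, Ex_const] at h
  exact h

section core

variable {a q}

theorem F_nonneg (I : Finset ι) (hq : ∀ i ∈ I, 0 ≤ q i ∧ q i ≤ 1) (t : ℝ) : 0 ≤ F a q I t := by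
  have h := Ex_mono a q I hq (fun _ => 0) (fun x => if x < t then 1 else 0)
    (fun x => by split_ifs <;> norm_num)
  rwa [Ex_const] at h

theorem F_le_one (I : Finset ι) (hq : ∀ i ∈ I, 0 ≤ q i ∧ q i ≤ 1) (t : ℝ) : F a q I t ≤ 1 := by
  have h := Ex_mono a q I hq (fun x => if x < t then 1 else 0) (fun _ => 1)
    (fun x => by split_ifs <;> norm_num)
  rwa [Ex_const] at h

theorem G_ge_sub_mean (I : Finset ι) (hq : ∀ i ∈ I, 0 ≤ q i ∧ q i ≤ 1) (t : ℝ) :
    t - ∑ i ∈ I, a i * q i ≤ G a q I t := by
  have h := Ex_mono a q I hq (fun x => t + (-1) * x) (fun x => max (t - x) 0)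
    (fun x => by
      have := le_max_left (t - x) 0
      linarith)
  rw [Ex_add, Ex_const, Ex_smul, Ex_id] at h
  unfold G
  linarith

/-- The first identity: `t F - G = ∑ m_i F_i(t - a_i)`. -/
theorem first_identity (I : Finset ι) (t : ℝ) :
    t * F a q I t - G a q I t
      = ∑ i ∈ I, (a i * q i) * Ex a q (I.erase i) (fun x => if x + a i < t then 1 else 0) := by
  have h := Ex_bias a q I (fun x => if x < t then 1 else 0)
  rw [← h]
  unfold F G
  have h2 : (fun x : ℝ => x * (if x < t then (1:ℝ) else 0))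
      = fun x => t * (if x < t then (1:ℝ) else 0) + (-1) * max (t - x) 0 := by
    funext x
    by_cases hx : x < t
    · rw [if_pos hx, max_eq_left (by linarith)]
      ring
    · rw [if_neg hx, max_eq_right (by linarith)]
      ring
  rw [h2, Ex_add, Ex_smul, Ex_smul]
  ring

/-- The second identity: `t G - E ((t-Z)^+)^2 = ∑ m_i G_i(t - a_i)`. -/
theorem second_identity (I : Finset ι) (t : ℝ) :
    t * G a q I t - Ex a q I (fun x => (max (t - x) 0) ^ 2)
      = ∑ i ∈ I, (a i * q i) * Ex a q (I.erase i) (fun x => max (t - (x + a i)) 0) := by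
  have h := Ex_bias a q I (fun x => max (t - x) 0)
  rw [← h]
  unfold G
  have h2 : (fun x : ℝ => x * max (t - x) 0)
      = fun x => t * max (t - x) 0 + (-1) * (max (t - x) 0) ^ 2 := by
    funext x
    by_cases hx : x < t
    · rw [max_eq_left (by linarith)]
      ring
    · rw [max_eq_right (by linarith)]
      ring
  rw [h2, Ex_add, Ex_smul, Ex_smul]
  ring

theorem cauchy (I : Finset ι) (hq : ∀ i ∈ I, 0 ≤ q i ∧ q i ≤ 1) (t : ℝ) :
    0 ≤ F a q I t * (F a q I t * Ex a q I (fun x => (max (t - x) 0) ^ 2) - G a q I t ^ 2) := by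
  have h := Ex_mono a q I hq (fun _ => 0)
    (fun x => (G a q I t * (if x < t then 1 else 0) - F a q I t * max (t - x) 0) ^ 2)
    (fun x => sq_nonneg _)
  rw [Ex_const] at h
  have h2 : (fun x : ℝ => (G a q I t * (if x < t then 1 else 0) - F a q I t * max (t - x) 0) ^ 2)
      = fun x => (G a q I t ^ 2 * (if x < t then 1 else 0)
        + (-2 * G a q I t * F a q I t) * max (t - x) 0)
        + F a q I t ^ 2 * (max (t - x) 0) ^ 2 := by
    funext x
    by_cases hx : x < t
    · rw [if_pos hx]
      ring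
    · rw [if_neg hx, max_eq_right (by linarith)]
      ring
  rw [h2, Ex_add, Ex_add, Ex_smul, Ex_smul, Ex_smul] at h
  change 0 ≤ G a q I t ^ 2 * F a q I t + -2 * G a q I t * F a q I t * G a q I t
    + F a q I t ^ 2 * _ at h
  calc (0:ℝ) ≤ _ := h
    _ = _ := by ring

/-- **Core lemma**: some variable can be removed at a controlled cost. -/
theorem core (I : Finset ι) (hI : I.Nonempty) (ha : ∀ i ∈ I, 0 < a i)
    (hq : ∀ i ∈ I, 0 < q i ∧ q i < 1) (t : ℝ) (ht : ∑ i ∈ I, a i * q i < t) :
    ∃ i ∈ I, G a q (I.erase i) t * (F a q (I.erase i) t - F a q I t)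
        ≤ (a i * q i) * F a q (I.erase i) t ^ 2 ∧
      G a q (I.erase i) t - (a i * q i) * F a q (I.erase i) t ≤ G a q I t ∧
      F a q I t ≤ F a q (I.erase i) t := by
  have hq' : ∀ i ∈ I, 0 ≤ q i ∧ q i ≤ 1 := fun i hi => ⟨(hq i hi).1.le, (hq i hi).2.le⟩
  have hqe : ∀ j ∈ I, ∀ i ∈ I.erase j, 0 ≤ q i ∧ q i ≤ 1 :=
    fun j _ i hi => hq' i (Finset.mem_of_mem_erase hi)
  set u := F a q I t with hu
  set g := G a q I t with hg
  set M := ∑ i ∈ I, a i * q i with hM
  set E2 := Ex a q I (fun x => (max (t - x) 0) ^ 2) with hE2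
  -- names
  let Fi : ι → ℝ := fun i => F a q (I.erase i) t
  let Fm : ι → ℝ := fun i => Ex a q (I.erase i) (fun x => if x + a i < t then 1 else 0)
  let Gi : ι → ℝ := fun i => G a q (I.erase i) t
  let Gm : ι → ℝ := fun i => Ex a q (I.erase i) (fun x => max (t - (x + a i)) 0)
  have hu_eq : ∀ i ∈ I, u = (1 - q i) * Fi i + q i * Fm i := fun i hi =>
    Ex_erase a q I i hi _
  have hg_eq : ∀ i ∈ I, g = (1 - q i) * Gi i + q i * Gm i := fun i hi =>
    Ex_erase a q I i hi _
  have hFm : ∀ i ∈ I, Fm i ≤ Fi i := fun i hi =>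
    Ex_mono a q (I.erase i) (hqe i hi) _ _ (fun x => by
      have := ha i hi
      split_ifs <;> linarith)
  have hGm : ∀ i ∈ I, Gi i ≤ Gm i + a i * Fi i := fun i hi => by
    have h := Ex_mono a q (I.erase i) (hqe i hi) (fun x => max (t - x) 0)
      (fun x => max (t - (x + a i)) 0 + a i * (if x < t then 1 else 0)) (fun x => by
        have hai := ha i hi
        have h0 := le_max_right (t - (x + a i)) 0
        have h1 := le_max_left (t - (x + a i)) 0
        by_cases hx : x < t
        · rw [if_pos hx, max_eq_left (by linarith)]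
          linarith
        · rw [if_neg hx, max_eq_right (by linarith)]
          linarith)
    rw [Ex_add, Ex_smul] at h
    exact h
  have hFi0 : ∀ i ∈ I, 0 ≤ Fi i := fun i hi => F_nonneg (I.erase i) (hqe i hi) t
  have h1 : t * u - g = ∑ i ∈ I, (a i * q i) * Fm i := first_identity I t
  have h2 : t * g - E2 = ∑ i ∈ I, (a i * q i) * Gm i := second_identity I t
  have h3 : 0 ≤ u * (u * E2 - g ^ 2) := cauchy I hq' t
  have hgpos : 0 < g := by
    have := G_ge_sub_mean (a := a) (q := q) I hq' t
    linarith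
  have hFm0 : ∀ i ∈ I, 0 ≤ Fm i := fun i hi => by
    have h := Ex_mono a q (I.erase i) (hqe i hi) (fun _ => 0)
      (fun x => if x + a i < t then 1 else 0) (fun x => by split_ifs <;> norm_num)
    rwa [Ex_const] at h
  have hM0 : 0 ≤ M := Finset.sum_nonneg fun i hi => (mul_pos (ha i hi) (hq i hi).1).le
  have hupos : 0 < u := by
    have h4 : 0 ≤ ∑ i ∈ I, (a i * q i) * Fm i := Finset.sum_nonneg fun i hi =>
      mul_nonneg (mul_pos (ha i hi) (hq i hi).1).le (hFm0 i hi)
    rw [← h1] at h4
    by_contra hcon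
    push Not at hcon
    nlinarith
  have h3' : g ^ 2 ≤ u * E2 := by
    by_contra hcon
    push Not at hcon
    nlinarith
  -- combined inequality
  have key : ∑ i ∈ I, ((a i * q i) * (1 - q i)) * (g * (Fi i - Fm i) - a i * Fi i * u) ≤ 0 := by
    have e1 : ∑ i ∈ I, ((a i * q i) * (1 - q i)) * (Fi i - Fm i) = M * u - (t * u - g) := by
      rw [h1, hM, Finset.sum_mul, ← Finset.sum_sub_distrib]
      refine Finset.sum_congr rfl fun i hi => ?_
      rw [hu_eq i hi]
      ring
    have e2 : M * g - (t * g - E2) ≤ ∑ i ∈ I, ((a i * q i) * (1 - q i)) * (a i * Fi i) := by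
      rw [h2, hM, Finset.sum_mul, ← Finset.sum_sub_distrib]
      refine Finset.sum_le_sum fun i hi => ?_
      have hm : 0 ≤ (a i * q i) * (1 - q i) :=
        mul_nonneg (mul_pos (ha i hi) (hq i hi).1).le (by linarith [(hq i hi).2])
      have e3 : a i * q i * g - a i * q i * Gm i = ((a i * q i) * (1 - q i)) * (Gi i - Gm i) := by
        rw [hg_eq i hi]
        ring
      rw [e3]
      exact mul_le_mul_of_nonneg_left (by linarith [hGm i hi]) hm
    have e4 : ∑ i ∈ I, ((a i * q i) * (1 - q i)) * (g * (Fi i - Fm i) - a i * Fi i * u)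
        = g * (∑ i ∈ I, ((a i * q i) * (1 - q i)) * (Fi i - Fm i))
          - u * ∑ i ∈ I, ((a i * q i) * (1 - q i)) * (a i * Fi i) := by
      rw [Finset.mul_sum, Finset.mul_sum, ← Finset.sum_sub_distrib]
      exact Finset.sum_congr rfl fun i _ => by ring
    rw [e4, e1]
    have e5 := mul_le_mul_of_nonneg_left e2 hupos.le
    nlinarith
  obtain ⟨i, hi, hle⟩ : ∃ i ∈ I, g * (Fi i - Fm i) - a i * Fi i * u ≤ 0 := by
    by_contra hcon
    push Not at hcon
    have : 0 < ∑ i ∈ I, ((a i * q i) * (1 - q i)) * (g * (Fi i - Fm i) - a i * Fi i * u) :=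
      Finset.sum_pos (fun i hi => mul_pos (mul_pos (mul_pos (ha i hi) (hq i hi).1)
        (by linarith [(hq i hi).2])) (hcon i hi)) hI
    linarith
  refine ⟨i, hi, ?_, ?_, ?_⟩
  · -- Gi (Fi - u) ≤ m Fi^2
    have hai := ha i hi
    have hqi := hq i hi
    have hD : 0 ≤ Fi i - Fm i := by linarith [hFm i hi]
    have hgG : Gi i ≤ g + (a i * q i) * Fi i := by
      have e1 := hg_eq i hi
      have e2 := hGm i hi
      have e3 := mul_le_mul_of_nonneg_left e2 hqi.1.le
      nlinarith
    have hFu : Fi i - u = q i * (Fi i - Fm i) := by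
      rw [hu_eq i hi]
      ring
    change Gi i * (Fi i - u) ≤ (a i * q i) * Fi i ^ 2
    rw [hFu]
    have e4 : Gi i * (Fi i - Fm i) ≤ a i * Fi i ^ 2 := by
      have e5 := mul_le_mul_of_nonneg_right hgG hD
      have e6 : (g + (a i * q i) * Fi i) * (Fi i - Fm i)
          = g * (Fi i - Fm i) + (a i * q i) * Fi i * (Fi i - Fm i) := by ring
      have e7 : a i * Fi i * u = a i * Fi i ^ 2 - (a i * q i) * Fi i * (Fi i - Fm i) := by
        have : u = Fi i - q i * (Fi i - Fm i) := by linarith
        rw [this]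
        ring
      linarith
    have e8 := mul_le_mul_of_nonneg_left e4 hqi.1.le
    nlinarith
  · have e1 := hg_eq i hi
    have e2 := hGm i hi
    have e3 := mul_le_mul_of_nonneg_left e2 (hq i hi).1.le
    change Gi i - (a i * q i) * Fi i ≤ g
    nlinarith
  · have e1 := hu_eq i hi
    have e2 := mul_le_mul_of_nonneg_left (hFm i hi) (hq i hi).1.le
    change u ≤ Fi i
    nlinarith

end core

end Pool.Agent.W205.Feige
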