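import Pool.Agent.W205.Feige.Basic

set_option autoImplicit false

namespace Pool.Agent.W205.Feige

open Finset

/-- `r ↦ r (1 - c r)^N` increases while `(N+1) c r ≤ 1`. -/
theorem step_mono (N : ℕ) (c r0 r : ℝ) (hc : 0 ≤ c) (h0 : 0 ≤ r0) (h : r0 ≤ r)
    (hr : (N + 1) * (c * r) < 1 ∨ ((N + 1) * (c * r) ≤ 1 ∧ c * r0 < 1)) :
    r0 * (1 - c * r0) ^ N ≤ r * (1 - c * r) ^ N := by
  have hN : (0:ℝ) ≤ N := Nat.cast_nonneg N
  have hcr : 0 ≤ c * r := mul_nonneg hc (h0.trans h)
  have hcr0 : c * r0 ≤ c * r := mul_le_mul_of_nonneg_left h hc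
  have hle : (N + 1) * (c * r) ≤ 1 := by
    rcases hr with h | h
    · exact h.le
    · exact h.1
  have hA : 0 < 1 - c * r0 := by
    rcases hr with h | h
    · nlinarith
    · linarith [h.2]
  have hB : 0 ≤ 1 - c * r := by nlinarith
  set A := 1 - c * r0 with hAdef
  have hbern : 1 - N * (c * (r - r0) / A) ≤ ((1 - c * r) / A) ^ N := by
    have h1 : (-2:ℝ) ≤ -(c * (r - r0) / A) := by
      have : c * (r - r0) / A ≤ 1 := by
        rw [div_le_one hA]
        rw [hAdef]
        nlinarith
      linarith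
    have h2 := one_add_mul_le_pow h1 N
    have h3 : 1 + -(c * (r - r0) / A) = (1 - c * r) / A := by
      field_simp
      rw [hAdef]
      ring
    rw [h3] at h2
    linarith
  have hpow : (1 - c * r) ^ N = A ^ N * ((1 - c * r) / A) ^ N := by
    rw [← mul_pow]
    congr 1
    field_simp
  rw [hpow]
  have hAN : 0 < A ^ N := pow_pos hA N
  have h5 : r0 ≤ r * ((1 - c * r) / A) ^ N := by
    have h6 : r * (1 - N * (c * (r - r0) / A)) ≤ r * ((1 - c * r) / A) ^ N :=
      mul_le_mul_of_nonneg_left hbern (h0.trans h)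
    have h7 : r0 ≤ r * (1 - N * (c * (r - r0) / A)) := by
      have h8 : r * (1 - N * (c * (r - r0) / A)) - r0
          = (r - r0) * (A - N * (c * r)) / A := by
        field_simp
        ring
      have h9 : 0 ≤ (r - r0) * (A - N * (c * r)) / A := by
        refine div_nonneg (mul_nonneg (by linarith) ?_) hA.le
        rw [hAdef]
        nlinarith
      linarith
    linarith
  nlinarith

/-- All means equal to one: `P(Z < n+1) ≥ (n/(n+1))^n`. -/
theorem mean_one {ι : Type*} [DecidableEq ι] (a q : ι → ℝ) (n : ℕ) (U : Finset ι)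
    (hU : U.card = n) (ha : ∀ i ∈ U, 0 < a i) (hq : ∀ i ∈ U, 0 < q i ∧ q i < 1)
    (hm : ∀ i ∈ U, a i * q i = 1) :
    ∀ I ⊆ U, (1 - 1 / ((n:ℝ) + 1)) ^ n
      ≤ F a q I (n + 1) * (1 - F a q I (n + 1) / G a q I (n + 1)) ^ (n - I.card) := by
  intro I
  induction I using Finset.strongInduction with
  | H I ih =>
  intro hIU
  have hcard : I.card ≤ n := hU ▸ Finset.card_le_card hIU
  have hcardR : (I.card : ℝ) ≤ n := by exact_mod_cast hcard
  by_cases hne : I.Nonempty
  swap
  · rw [Finset.not_nonempty_iff_eq_empty] at hne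
    subst hne
    have h1 : F a q ∅ ((n:ℝ) + 1) = 1 := by
      unfold F
      rw [Ex_empty, if_pos (by positivity)]
    have h2 : G a q ∅ ((n:ℝ) + 1) = n + 1 := by
      unfold G
      rw [Ex_empty, max_eq_left (by
        have : (0:ℝ) ≤ n := Nat.cast_nonneg n
        linarith)]
      ring
    rw [h1, h2]
    simp
  · have hsum : ∑ i ∈ I, a i * q i = (I.card : ℝ) := by
      rw [Finset.sum_congr rfl (fun i hi => hm i (hIU hi))]
      simp
    obtain ⟨i, hi, hc1, hc2, hc3⟩ := core I hne (fun i hi => ha i (hIU hi))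
      (fun i hi => hq i (hIU hi)) ((n:ℝ) + 1) (by rw [hsum]; linarith)
    have hIe : I.erase i ⊂ I := Finset.erase_ssubset hi
    have hih := ih (I.erase i) hIe (hIe.subset.trans hIU)
    have hq' : ∀ j ∈ I, 0 ≤ q j ∧ q j ≤ 1 := fun j hj =>
      ⟨(hq j (hIU hj)).1.le, (hq j (hIU hj)).2.le⟩
    have hqe : ∀ j ∈ I.erase i, 0 ≤ q j ∧ q j ≤ 1 := fun j hj => hq' j (Finset.mem_of_mem_erase hj)
    rw [hm i (hIU hi)] at hc1 hc2
    rw [one_mul] at hc1 hc2
    have hcardpos : 0 < I.card := Finset.card_pos.mpr hne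
    have hcarde : (I.erase i).card = I.card - 1 := Finset.card_erase_of_mem hi
    obtain ⟨N, hN⟩ : ∃ N, n = I.card + N := ⟨n - I.card, by omega⟩
    have hexp : n - I.card = N := by omega
    have hexp' : n - (I.erase i).card = N + 1 := by omega
    rw [hexp]
    rw [hexp'] at hih
    have hNR : (n:ℝ) = I.card + N := by exact_mod_cast hN
    -- lower bound for G on the erased set
    have hsume : ∑ j ∈ I.erase i, a j * q j = (I.card : ℝ) - 1 := by
      have := Finset.sum_erase_eq_sub (f := fun j => a j * q j) hi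
      rw [this, hsum, hm i (hIU hi)]
    set f := F a q (I.erase i) ((n:ℝ) + 1) with hf
    set g := G a q (I.erase i) ((n:ℝ) + 1) with hg
    set u := F a q I ((n:ℝ) + 1) with hu
    set γ := G a q I ((n:ℝ) + 1) with hγ
    have hf1 : f ≤ 1 := F_le_one (I.erase i) hqe _
    have hu0 : 0 ≤ u := F_nonneg I hq' _
    have hgf : ((N:ℝ) + 2) * f ≤ g := by
      have h1 := G_ge_sub_mean (a := a) (q := q) (I.erase i) hqe ((n:ℝ) + 1)
      rw [hsume] at h1
      have h2 : ((N:ℝ) + 2) ≤ g := by
        rw [hg]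
        linarith
      have h0 : (0:ℝ) ≤ (N:ℝ) + 2 := by positivity
      nlinarith
    have hNnn : (0:ℝ) ≤ N := Nat.cast_nonneg N
    have hgpos : 0 < g := by
      have h1 := G_ge_sub_mean (a := a) (q := q) (I.erase i) hqe ((n:ℝ) + 1)
      rw [hsume] at h1
      rw [hg]
      linarith
    have hf0 : 0 ≤ f := hu0.trans hc3
    have hfpos : 0 < f := by
      rcases hf0.lt_or_eq with h | h
      · exact h
      · exfalso
        have : u = 0 := le_antisymm (h ▸ hc3) hu0
        -- G > 0 while F = 0 is impossible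
        have h1 := first_identity (a := a) (q := q) (I.erase i) ((n:ℝ) + 1)
        rw [← hf, ← hg, ← h] at h1
        have h2 : 0 ≤ ∑ j ∈ I.erase i, (a j * q j)
            * Ex a q ((I.erase i).erase j) (fun x => if x + a j < (n:ℝ) + 1 then 1 else 0) := by
          refine Finset.sum_nonneg fun j hj => mul_nonneg ?_ ?_
          · have hjU := hIU (Finset.mem_of_mem_erase hj)
            exact (mul_pos (ha j hjU) (hq j hjU).1).le
          · have h := Ex_mono a q ((I.erase i).erase j)
              (fun k hk => hqe k (Finset.mem_of_mem_erase hk)) (fun _ => 0)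
              (fun x => if x + a j < (n:ℝ) + 1 then 1 else 0) (fun x => by split_ifs <;> norm_num)
            rwa [Ex_const] at h
        linarith
    have hgmf : 0 < g - f := by nlinarith
    -- the chain
    have hlow : f * (1 - f / g) ≤ u := by
      have h1 : f * (1 - f / g) = (g * f - f ^ 2) / g := by
        field_simp
      rw [h1, div_le_iff₀ hgpos]
      nlinarith
    have hγpos : 0 < γ := lt_of_lt_of_le hgmf hc2
    have hstep := step_mono N (1 / (g - f)) (f * (1 - f / g)) u (by positivity)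
      (mul_nonneg hf0 (by
        rw [sub_nonneg, div_le_one hgpos]
        linarith)) hlow
      (by
        right
        constructor
        · rw [one_div, ← div_eq_inv_mul, ← mul_div_assoc, div_le_one hgmf]
          have : ((N:ℝ) + 1) * u ≤ ((N:ℝ) + 1) * f :=
            mul_le_mul_of_nonneg_left hc3 (by positivity)
          linarith
        · have h1 : 1 / (g - f) * (f * (1 - f / g)) = f / g := by
            field_simp
          rw [h1, div_lt_one hgpos]
          linarith)
    have heq : 1 / (g - f) * (f * (1 - f / g)) = f / g := by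
      field_simp
    rw [heq] at hstep
    have hlast : u * (1 - 1 / (g - f) * u) ^ N ≤ u * (1 - u / γ) ^ N := by
      refine mul_le_mul_of_nonneg_left ?_ hu0
      refine pow_le_pow_left₀ ?_ ?_ N
      · rw [one_div, ← div_eq_inv_mul, sub_nonneg, div_le_one hgmf]
        nlinarith
      · rw [one_div, ← div_eq_inv_mul]
        have := div_le_div_of_nonneg_left hu0 hgmf hc2
        linarith
    calc (1 - 1 / ((n:ℝ) + 1)) ^ n ≤ f * (1 - f / g) ^ (N + 1) := hih
      _ = f * (1 - f / g) * (1 - f / g) ^ N := by ring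
      _ ≤ u * (1 - 1 / (g - f) * u) ^ N := hstep
      _ ≤ _ := hlast

theorem exp_neg_one_le (n : ℕ) : Real.exp (-1) ≤ (1 - 1 / ((n:ℝ) + 1)) ^ n := by
  rcases Nat.eq_zero_or_pos n with rfl | hn
  · simp
  · have hn' : (0:ℝ) < n := by exact_mod_cast hn
    have h1 : (1 - 1 / ((n:ℝ) + 1)) = (1 + 1 / (n:ℝ))⁻¹ := by
      field_simp
      ring
    rw [h1, inv_pow, Real.exp_neg]
    refine inv_anti₀ (by positivity) ?_
    have h2 : 1 + 1 / (n:ℝ) ≤ Real.exp (1 / (n:ℝ)) := by
      have := Real.add_one_le_exp (1 / (n:ℝ))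
      linarith
    calc (1 + 1 / (n:ℝ)) ^ n ≤ (Real.exp (1 / (n:ℝ))) ^ n :=
          pow_le_pow_left₀ (by positivity) h2 n
      _ = Real.exp 1 := by
          rw [← Real.exp_nat_mul]
          congr 1
          field_simp

end Pool.Agent.W205.Feige
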